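import Pool.Agent.R221.PQ.Semi

set_option autoImplicit false

open Filter Topology Set

namespace Pool.Agent.R221.PQ

variable {E : Type*} [NormedAddCommGroup E] [NormedSpace ℝ E]
variable {ι : Type*} [Finite ι] {q : ι → Quad E} {f : E → ℝ}

/-- Step C: on an open convex set of good points `f` is one quadratic function. -/
lemma stepC (hf : Continuous f) (hq : ∀ x, ∃ i, f x = (q i).ev x) {O : Set E} (hO : IsOpen O)
    (hOc : Convex ℝ O) (hOne : O.Nonempty) (hgood : ∀ x ∈ O, Good q x)
    (h2 : ∀ x, TwiceSemidiffAt f x) : ∃ i, ∀ x ∈ O, f x = (q i).ev x := by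
  classical
  have := Fintype.ofFinite ι
  obtain ⟨i0, -, V, hVO, hVo, hVne, hV⟩ := cover (Finset.univ : Finset ι)
    (fun i => {x | f x = (q i).ev x}) (fun i => isClosed_eq hf (q i).continuous_ev)
    hO hOne (fun x _ => by
      obtain ⟨i, hi⟩ := hq x
      exact ⟨i, Finset.mem_univ _, hi⟩)
  -- a generic point
  obtain ⟨p, hpV, hp⟩ : ∃ p ∈ V, ∀ i, (q i).ev ≠ (q i0).ev → (q i).ev p ≠ (q i0).ev p := by
    by_contra hcon
    push Not at hcon
    obtain ⟨i, hi, W, hWV, hWo, hWne, hW⟩ := cover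
      (Finset.univ.filter fun i => (q i).ev ≠ (q i0).ev)
      (fun i => {x | (q i).ev x = (q i0).ev x})
      (fun i => isClosed_eq (q i).continuous_ev (q i0).continuous_ev) hVo hVne (fun p hp => by
        obtain ⟨i, h1, h2⟩ := hcon p hp
        exact ⟨i, Finset.mem_filter.2 ⟨Finset.mem_univ _, h1⟩, h2⟩)
    rw [Finset.mem_filter] at hi
    apply hi.2
    funext x
    have := ((q i).sub (q i0)).ev_zero hWo hWne (fun x hx => by
      have := hW hx
      simp only [mem_ofPred_eq] at this
      rw [Quad.sub_ev, this, sub_self]) x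
    rw [Quad.sub_ev] at this
    linarith
  refine ⟨i0, ?_⟩
  by_contra hcon
  push Not at hcon
  obtain ⟨w0, hw0O, hw0⟩ := hcon
  set W : Set E := {w | w ∈ O ∧ f w ≠ (q i0).ev w} with hW
  have hWo : IsOpen W := hO.inter (isOpen_ne_fun hf (q i0).continuous_ev)
  set g : ι → Quad E := fun b => (q b).sub (q i0) with hg
  -- the sets of directions with a double root
  set A : ι → Set E := fun b => {w | w ∈ O ∧ (q b).ev ≠ (q i0).ev ∧ ∃ t : ℝ, 0 < t ∧ t < 1 ∧
    (g b).ev (p + t • (w - p)) = 0 ∧ (g b).der (p + t • (w - p)) (w - p) = 0} with hA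
  have hpO : p ∈ O := hVO hpV
  have key : ∀ w ∈ W, ∃ b, w ∈ A b := by
    rintro w ⟨hwO, hw⟩
    set γ : ℝ → E := fun t => p + t • (w - p) with hγ
    have hγc : Continuous γ := by simp only [hγ]; fun_prop
    have hγO : ∀ t, 0 ≤ t → t ≤ 1 → γ t ∈ O := by
      intro t h0 h1
      have : γ t = (1 - t) • p + t • w := by simp only [hγ]; module
      rw [this]
      exact hOc hpO hwO (by linarith) h0 (by ring)
    have hgc : Continuous fun t => f (γ t) - (q i0).ev (γ t) :=
      (hf.comp hγc).sub ((q i0).continuous_ev.comp hγc)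
    have hg0 : ∀ᶠ t in 𝓝 (0 : ℝ), f (γ t) - (q i0).ev (γ t) = 0 := by
      have : ∀ᶠ t in 𝓝 (0 : ℝ), γ t ∈ V := by
        apply hγc.continuousAt.eventually_mem
        simpa [hγ] using hVo.mem_nhds hpV
      filter_upwards [this] with t ht
      have := hV ht
      simp only [mem_ofPred_eq] at this
      rw [this, sub_self]
    have hg1 : f (γ 1) - (q i0).ev (γ 1) ≠ 0 := by
      have : γ 1 = w := by simp [hγ]
      rw [this]
      exact sub_ne_zero.2 hw
    obtain ⟨T, hT0, hT1, hleft, hright⟩ := exit hgc hg0 hg1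
    have hr : ∃ᶠ t in 𝓝[>] T, ∃ b, f (γ t) = (q b).ev (γ t) ∧ f (γ t) ≠ (q i0).ev (γ t) := by
      refine hright.mono fun t ht => ?_
      obtain ⟨b, hb⟩ := hq (γ t)
      exact ⟨b, hb, sub_ne_zero.1 ht⟩
    obtain ⟨b, hb⟩ := frequently_pigeon hr
    have hbne : (q b).ev ≠ (q i0).ev := by
      intro h
      obtain ⟨t, ht⟩ := hb.exists
      apply ht.2
      rw [ht.1, h]
    set x := γ T with hx
    have hxO : x ∈ O := hγO T hT0.le hT1.le
    obtain ⟨L, hL⟩ := stepB hf hq (hgood x hxO) (h2 x)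
    have hfx0 : f x = (q i0).ev x := sub_eq_zero.1 (hleft T ⟨hT0.le, le_rfl⟩)
    have hfxb : f x = (q b).ev x := by
      have hγT' : Tendsto γ (𝓝[>] T) (𝓝 x) := (hγc.tendsto T).mono_left nhdsWithin_le_nhds
      exact tendsto_nhds_unique_of_frequently_eq ((hf.tendsto _).comp hγT')
        (((q b).continuous_ev.tendsto _).comp hγT') (hb.mono fun t ht => ht.1)
    set v := w - p with hv
    have hγx : ∀ τ : ℝ, γ (T + τ) = x + τ • v := by
      intro τ; simp only [hx, hγ, hv]; module
    -- shifted frequently statement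
    have hb' : ∃ᶠ τ in 𝓝[>] (0 : ℝ), f (x + τ • v) = (q b).ev (x + τ • v) := by
      have hmap : map (fun τ : ℝ => T + τ) (𝓝[>] 0) = 𝓝[>] T := by
        have := map_add_left_nhdsGT (c := T) (a := (0 : ℝ))
        simpa using this
      rw [← hmap, frequently_map] at hb
      refine hb.mono fun τ hτ => ?_
      rw [← hγx]
      exact hτ.1
    have hpos : ∀ᶠ τ : ℝ in 𝓝[>] 0, 0 < τ := self_mem_nhdsWithin
    have hder : ∀ (r : Quad E) (u : E), f x = r.ev x →
        (∃ᶠ τ in 𝓝[>] (0 : ℝ), f (x + τ • u) = r.ev (x + τ • u)) → L u = r.der x u := by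
      intro r u hru hfr
      have t1 := (hL u).comp (tendsto_slice u)
      have t2 : Tendsto (fun τ : ℝ => r.der x u + τ * r.B u u) (𝓝[>] 0) (𝓝 (r.der x u)) := by
        have : Continuous fun τ : ℝ => r.der x u + τ * r.B u u := by fun_prop
        have h := this.tendsto 0
        simp only [zero_mul, add_zero] at h
        exact h.mono_left nhdsWithin_le_nhds
      refine tendsto_nhds_unique_of_frequently_eq t1 t2 ?_
      refine (hfr.and_eventually hpos).mono fun τ hτ => ?_
      simp only [Function.comp]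
      rw [hτ.1, r.ev_add_smul, hru]
      have := hτ.2.ne'
      field_simp
      ring
    have hL1 : L v = (q b).der x v := hder (q b) v hfxb hb'
    have hL2 : L (-v) = (q i0).der x (-v) := by
      refine hder (q i0) (-v) hfx0 (Eventually.frequently ?_)
      have : ∀ᶠ τ : ℝ in 𝓝[>] 0, τ < T :=
        nhdsWithin_le_nhds (eventually_lt_nhds hT0)
      filter_upwards [this, hpos] with τ h1 h3
      have h4 : x + τ • (-v) = γ (T - τ) := by
        simp only [hx, hγ, hv]; module
      rw [h4]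
      exact sub_eq_zero.1 (hleft (T - τ) ⟨by linarith, by linarith⟩)
    rw [map_neg, map_neg] at hL2
    refine ⟨b, hwO, hbne, T, hT0, hT1, ?_, ?_⟩
    · change (g b).ev x = 0
      rw [hg]
      simp only
      rw [Quad.sub_ev, ← hfxb, ← hfx0, sub_self]
    · change (g b).der x v = 0
      rw [hg]
      simp only
      rw [Quad.sub_der]
      linarith
  obtain ⟨b, W', hW'W, hW'o, hW'ne, hW'⟩ := cover_dense A hWo ⟨w0, hw0O, hw0⟩ key
  -- discriminant
  have hdisc : ∀ w ∈ W', ((g b).der p (w - p)) ^ 2 - 4 * (g b).ev p * (g b).B (w - p) (w - p) = 0 := by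
    intro w hw
    have hcl : IsClosed {w : E | ((g b).der p (w - p)) ^ 2 -
        4 * (g b).ev p * (g b).B (w - p) (w - p) = 0} := by
      have h1 : Continuous fun w : E => (g b).B (w - p) (w - p) :=
        (g b).continuous_B.comp (continuous_id.sub continuous_const)
      exact isClosed_eq (by fun_prop) continuous_const
    refine (hcl.closure_subset_iff.2 ?_) (hW' hw)
    rintro w ⟨-, -, t, ht0, ht1, e1, e2⟩
    rw [Quad.ev_add_smul] at e1
    rw [Quad.der_add_smul] at e2
    simp only [mem_ofPred_eq]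
    linear_combination ((g b).der p (w - p) - 2 * t * (g b).B (w - p) (w - p)) * e2 +
      (4 * t * (g b).B (w - p) (w - p)) * e2 - (4 * (g b).B (w - p) (w - p)) * e1
  set a := (g b).ev p with ha
  set L := (g b).der p with hL
  have hall : ∀ v : E, (L v) ^ 2 = 4 * a * (g b).B v v := by
    intro v
    let Q : Quad E := ⟨L.smulRight L - (4 * a) • (g b).B, fun x y => by
      simp [(g b).symm x y]; ring, 0, 0⟩
    have hQ : ∀ x, Q.ev x = (L x) ^ 2 - 4 * a * (g b).B x x := by
      intro x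
      simp [Q, Quad.ev]; ring
    have hQ0 := Q.ev_zero (U := (fun v => p + v) ⁻¹' W') (hW'o.preimage (by fun_prop))
      (by obtain ⟨w, hw⟩ := hW'ne; exact ⟨w - p, by simpa using hw⟩)
      (fun x hx => by
        rw [hQ]
        have := hdisc _ hx
        simpa using this) v
    rw [hQ] at hQ0
    linarith
  -- a point of `A b`
  obtain ⟨w, hw⟩ : (A b).Nonempty := by
    rw [← closure_nonempty_iff]
    obtain ⟨w, hw⟩ := hW'ne
    exact ⟨w, hW' hw⟩
  obtain ⟨hwO, hbne, t, ht0, ht1, e1, e2⟩ := hw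
  have ha0 : a ≠ 0 := by
    rw [ha, hg]
    simp only
    rw [Quad.sub_ev]
    exact sub_ne_zero.2 (hp b hbne)
  set x := p + t • (w - p) with hx
  have hxO : x ∈ O := by
    have : x = (1 - t) • p + t • w := by simp only [hx]; module
    rw [this]
    exact hOc hpO hwO (by linarith) ht0.le (by ring)
  have hsq : ∀ v, 4 * a * (g b).ev (p + v) = (2 * a + L v) ^ 2 := by
    intro v
    rw [Quad.ev_add, ← ha, ← hL]
    have := hall v
    linear_combination (-1 : ℝ) * this
  have hLx : 2 * a + L (t • (w - p)) = 0 := by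
    have := hsq (t • (w - p))
    rw [← hx, e1, mul_zero] at this
    exact pow_eq_zero_iff (two_ne_zero) |>.1 this.symm
  have hL0 : L ≠ 0 := by
    intro h
    rw [h] at hLx
    simp at hLx
    exact ha0 hLx
  obtain ⟨v, hv, hvne⟩ := hgood x hxO b i0 hbne L hL0
  apply hvne
  have h5 := hsq (t • (w - p) + v)
  rw [map_add, hv, add_zero, hLx, ← add_assoc, ← hx] at h5
  have h6 : (g b).ev (x + v) = 0 := by
    have h7 : 4 * a ≠ 0 := mul_ne_zero four_ne_zero ha0
    have h8 : 4 * a * (g b).ev (x + v) = 0 := by rw [h5]; ring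
    exact (mul_eq_zero.1 h8).resolve_left h7
  rw [hg] at h6
  simp only at h6
  rw [Quad.sub_ev] at h6
  linarith

/-- for each pair, finitely many affine functions whose zero sets contain all bad points -/
lemma pair_family (g : Quad E) (hg : g.ev ≠ 0) :
    ∃ s : Finset ((E →L[ℝ] ℝ) × ℝ), (∀ a ∈ s, a.1 ≠ 0) ∧
      ∀ x, (∀ a ∈ s, a.1 x + a.2 ≠ 0) → ∀ m : E →L[ℝ] ℝ, m ≠ 0 → ∃ v, m v = 0 ∧
        g.ev (x + v) ≠ 0 := by
  classical
  by_cases h : ∃ (x0 : E) (m0 : E →L[ℝ] ℝ), m0 ≠ 0 ∧ ∀ v, m0 v = 0 → g.ev (x0 + v) = 0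
  · obtain ⟨x0, m0, hm0, h0⟩ := h
    obtain ⟨e, he⟩ : ∃ e, m0 e = 1 := by
      obtain ⟨y, hy⟩ : ∃ y, m0 y ≠ 0 := by
        by_contra hcon
        push Not at hcon
        exact hm0 (by ext y; simpa using hcon y)
      exact ⟨(m0 y)⁻¹ • y, by simp [hy]⟩
    -- the cofactor
    set k : E →L[ℝ] ℝ := (2 : ℝ) • g.B e - (g.B e e) • m0 with hk
    set d : ℝ := g.der x0 e with hd
    have hfac : ∀ v, g.ev (x0 + v) = m0 v * (k v + d) := by
      intro v
      set v' := v - m0 v • e with hv'
      have hv0 : m0 v' = 0 := by simp [hv', he]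
      have hx0 : g.ev x0 = 0 := by simpa using h0 0 (by simp)
      have h1 := h0 v' hv0
      have h2 := h0 (-v') (by simp [hv0])
      rw [Quad.ev_add, hx0] at h1 h2
      simp only [map_neg, neg_apply, neg_neg] at h2
      have h3 : g.der x0 v' = 0 := by linarith
      have h4 : g.B v' v' = 0 := by linarith
      have h5 : v = v' + m0 v • e := by simp [hv']
      have h6 : g.B v v = 2 * m0 v * g.B e v' + (m0 v) ^ 2 * g.B e e := by
        conv_lhs => rw [h5]
        simp only [map_add, map_smul, add_apply, smul_apply, smul_eq_mul]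
        rw [h4, g.symm v' e]
        ring
      have h7 : g.der x0 v = m0 v * d := by
        conv_lhs => rw [h5]
        simp only [map_add, map_smul, smul_eq_mul]
        rw [h3, hd]; ring
      have h8 : k v = 2 * g.B e v' + m0 v * g.B e e := by
        simp only [hk, sub_apply, smul_apply, smul_eq_mul]
        conv_lhs => rw [h5]
        simp only [map_add, map_smul, smul_eq_mul, hv0, he]
        ring
      rw [Quad.ev_add, hx0, h7, h6, h8]
      ring
    have hfac' : ∀ x, g.ev x = (m0 x + -(m0 x0)) * (k x + (d - k x0)) := by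
      intro x
      have := hfac (x - x0)
      rw [add_sub_cancel, map_sub, map_sub] at this
      rw [this]; ring
    by_cases hk0 : k = 0
    · refine ⟨{(m0, -(m0 x0))}, by simpa using hm0, fun x hx m _ => ⟨0, by simp, ?_⟩⟩
      rw [add_zero, hfac']
      have h1 := hx (m0, -(m0 x0)) (by simp)
      refine mul_ne_zero h1 ?_
      rw [hk0]
      simp only [zero_apply, sub_zero, zero_add]
      intro hd0
      apply hg
      funext y
      rw [hfac', hk0, hd0]
      simp
    · refine ⟨{(m0, -(m0 x0)), (k, d - k x0)}, ?_, fun x hx m _ => ⟨0, by simp, ?_⟩⟩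
      · intro a ha
        simp only [Finset.mem_insert, Finset.mem_singleton] at ha
        rcases ha with rfl | rfl
        · exact hm0
        · exact hk0
      · rw [add_zero, hfac']
        exact mul_ne_zero (hx (m0, -(m0 x0)) (by simp)) (hx (k, d - k x0) (by simp))
  · push Not at h
    refine ⟨∅, by simp, fun x _ m hm => ?_⟩
    obtain ⟨v, hv, hne⟩ := h x m hm
    exact ⟨v, hv, hne⟩

lemma family (q : ι → Quad E) :
    ∃ s : Finset ((E →L[ℝ] ℝ) × ℝ), (∀ a ∈ s, a.1 ≠ 0) ∧
      ∀ x, (∀ a ∈ s, a.1 x + a.2 ≠ 0) → Good q x := by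
  classical
  have := Fintype.ofFinite ι
  have h : ∀ ij : ι × ι, ∃ s : Finset ((E →L[ℝ] ℝ) × ℝ), (∀ a ∈ s, a.1 ≠ 0) ∧
      ∀ x, (∀ a ∈ s, a.1 x + a.2 ≠ 0) → (q ij.1).ev ≠ (q ij.2).ev → ∀ m : E →L[ℝ] ℝ, m ≠ 0 →
        ∃ v, m v = 0 ∧ (q ij.1).ev (x + v) ≠ (q ij.2).ev (x + v) := by
    rintro ⟨i, j⟩
    by_cases hij : (q i).ev = (q j).ev
    · exact ⟨∅, by simp, fun x _ h => absurd hij h⟩
    · obtain ⟨s, hs, hx⟩ := pair_family ((q i).sub (q j)) (fun h0 => hij (funext fun x => by
        have := congrFun h0 x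
        rw [Quad.sub_ev] at this
        simp only [Pi.zero_apply] at this
        linarith))
      refine ⟨s, hs, fun x h1 _ m hm => ?_⟩
      obtain ⟨v, hv, hne⟩ := hx x h1 m hm
      refine ⟨v, hv, ?_⟩
      rw [Quad.sub_ev] at hne
      exact sub_ne_zero.1 hne
  choose s hs hgood using h
  refine ⟨Finset.univ.biUnion s, ?_, ?_⟩
  · intro a ha
    obtain ⟨ij, -, h⟩ := Finset.mem_biUnion.1 ha
    exact hs ij a h
  · intro x hx i j hij m hm
    exact hgood (i, j) x (fun a ha => hx a (Finset.mem_biUnion.2 ⟨(i, j), Finset.mem_univ _, ha⟩))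
      hij m hm

/-- `P` is a polyhedron: an intersection of finitely many closed half-spaces. -/
def IsPolyhedron (P : Set E) : Prop :=
  ∃ s : Set ((E →L[ℝ] ℝ) × ℝ), s.Finite ∧ (∀ a ∈ s, a.1 ≠ 0) ∧ P = {x | ∀ a ∈ s, a.1 x ≤ a.2}

/-- the polyhedral decomposition -/
lemma stepD (hf : Continuous f) (hq : ∀ x, ∃ i, f x = (q i).ev x)
    (h2 : ∀ x, TwiceSemidiffAt f x) :
    ∃ (N : ℕ) (P : Fin N → Set E) (j : Fin N → ι), (∀ k, IsPolyhedron (P k)) ∧
      (⋃ k, P k) = univ ∧ ∀ k, ∀ x ∈ P k, f x = (q (j k)).ev x := by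
  classical
  obtain ⟨s, hs, hgood⟩ := family q
  -- open and closed cells
  set O : (s → Bool) → Set E := fun σ => {x | ∀ a : s,
    0 < (if σ a then (1 : ℝ) else -1) * (a.1.1 x + a.1.2)} with hO
  set C : (s → Bool) → Set E := fun σ => {x | ∀ a : s,
    0 ≤ (if σ a then (1 : ℝ) else -1) * (a.1.1 x + a.1.2)} with hC
  have hOopen : ∀ σ, IsOpen (O σ) := by
    intro σ
    have : O σ = ⋂ a : s, {x | 0 < (if σ a then (1 : ℝ) else -1) * (a.1.1 x + a.1.2)} := by
      ext x; simp [hO]
    rw [this]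
    exact isOpen_iInter_of_finite fun a => isOpen_lt continuous_const (by fun_prop)
  have hCclosed : ∀ σ, IsClosed (C σ) := by
    intro σ
    have : C σ = ⋂ a : s, {x | 0 ≤ (if σ a then (1 : ℝ) else -1) * (a.1.1 x + a.1.2)} := by
      ext x; simp [hC]
    rw [this]
    exact isClosed_iInter fun a => isClosed_le continuous_const (by fun_prop)
  have hmix : ∀ σ, ∀ x ∈ C σ, ∀ y ∈ O σ, ∀ t : ℝ, 0 < t → t ≤ 1 → x + t • (y - x) ∈ O σ := by
    intro σ x hx y hy t ht0 ht1 a
    have h1 := hx a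
    have h2 := hy a
    simp only [map_add, map_smul, map_sub, smul_eq_mul]
    have : (if σ a then (1 : ℝ) else -1) * (a.1.1 x + t * (a.1.1 y - a.1.1 x) + a.1.2) =
      (1 - t) * ((if σ a then (1 : ℝ) else -1) * (a.1.1 x + a.1.2)) +
      t * ((if σ a then (1 : ℝ) else -1) * (a.1.1 y + a.1.2)) := by ring
    rw [this]
    have h3 := mul_nonneg (sub_nonneg.2 ht1) h1
    have h4 := mul_pos ht0 h2
    linarith
  have hOC : ∀ σ, O σ ⊆ C σ := fun σ x hx a => (hx a).le
  have hconv : ∀ σ, Convex ℝ (O σ) := by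
    intro σ x hx y hy α β hα hβ hαβ
    rcases hβ.eq_or_lt with h | h
    · have : α = 1 := by linarith
      rw [← h, this]; simpa using hx
    · have : α • x + β • y = x + β • (y - x) := by
        have : α = 1 - β := by linarith
        rw [this]; module
      rw [this]
      exact hmix σ x (hOC σ hx) y hy β h (by linarith)
  have hOgood : ∀ σ, ∀ x ∈ O σ, Good q x := by
    intro σ x hx
    apply hgood
    intro a ha h0
    have := hx ⟨a, ha⟩
    simp only [h0, mul_zero] at this
    exact lt_irrefl _ this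
  have hq' : ∀ σ : {σ // (O σ).Nonempty}, ∃ i, ∀ x ∈ O σ.1, f x = (q i).ev x := fun σ =>
    stepC hf hq (hOopen _) (hconv _) σ.2 (hOgood _) h2
  choose j hj using hq'
  obtain ⟨N, ⟨e⟩⟩ := Finite.exists_equiv_fin {σ // (O σ).Nonempty}
  suffices hmain : (∀ σ : {σ // (O σ).Nonempty}, IsPolyhedron (C σ.1)) ∧
      (⋃ σ : {σ // (O σ).Nonempty}, C σ.1) = univ ∧
      ∀ σ : {σ // (O σ).Nonempty}, ∀ x ∈ C σ.1, f x = (q (j σ)).ev x by
    refine ⟨N, fun k => C (e.symm k).1, fun k => j (e.symm k), fun k => hmain.1 _, ?_,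
      fun k => hmain.2.2 _⟩
    rw [← hmain.2.1]
    exact e.symm.surjective.iUnion_comp fun σ => C σ.1
  refine ⟨?_, ?_, ?_⟩
  · intro σ
    refine ⟨(fun a : s => (((if σ.1 a then (-1 : ℝ) else 1) • a.1.1 : E →L[ℝ] ℝ),
      (if σ.1 a then (1 : ℝ) else -1) * a.1.2)) '' univ, (Set.toFinite _), ?_, ?_⟩
    · rintro _ ⟨a, -, rfl⟩
      have h1 := hs a.1 a.2
      simp only
      split_ifs
      · simpa using h1
      · simpa using h1
    · ext x
      simp only [hC, mem_ofPred_eq, image_univ, mem_range, forall_exists_index,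
        forall_apply_eq_imp_iff, smul_apply, smul_eq_mul]
      refine forall_congr' fun a => ?_
      split_ifs <;> constructor <;> intro h <;> linarith
  · rw [eq_univ_iff_forall]
    intro x
    -- density of the complement of the hyperplanes
    have hdense : x ∈ closure {x : E | ∀ a ∈ s, a.1 x + a.2 ≠ 0} := by
      by_contra hx
      rw [mem_closure_iff] at hx
      push Not at hx
      obtain ⟨U, hUo, hxU, hU⟩ := hx
      obtain ⟨a, ha, W, -, hWo, hWne, hW⟩ := cover s (fun a => {x : E | a.1 x + a.2 = 0})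
        (fun a => isClosed_eq (by fun_prop) continuous_const) hUo ⟨x, hxU⟩ (by
          intro y hy
          by_contra hcon
          push Not at hcon
          have : y ∈ U ∩ {x : E | ∀ a ∈ s, a.1 x + a.2 ≠ 0} := ⟨hy, fun a ha => hcon a ha⟩
          rw [hU] at this
          exact this)
      apply hs a ha
      have h1 := Quad.ev_zero (E := E) ⟨0, fun x y => by simp, a.1, a.2⟩ hWo hWne
        (fun x hx => by
          have := hW hx
          simp only [mem_ofPred_eq] at this
          simp [Quad.ev, this])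
      ext y
      have h2 := h1 y
      have h3 := h1 0
      simp [Quad.ev] at h2 h3
      rw [h3] at h2
      simpa using h2
    have hsub : {x : E | ∀ a ∈ s, a.1 x + a.2 ≠ 0} ⊆ ⋃ σ : {σ // (O σ).Nonempty}, C σ.1 := by
      intro y hy
      set σ : s → Bool := fun a => decide (0 < a.1.1 y + a.1.2) with hσ
      have hyO : y ∈ O σ := by
        intro a
        have h1 := hy a.1 a.2
        by_cases h : 0 < a.1.1 y + a.1.2
        · simp [hσ, h]
        · have : a.1.1 y + a.1.2 < 0 := lt_of_le_of_ne (not_lt.1 h) h1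
          simp only [hσ, h, decide_false, Bool.false_eq_true, if_false]
          linarith
      exact mem_iUnion.2 ⟨⟨σ, ⟨y, hyO⟩⟩, hOC σ hyO⟩
    have hcl : IsClosed (⋃ σ : {σ // (O σ).Nonempty}, C σ.1) :=
      isClosed_iUnion_of_finite fun σ => hCclosed _
    exact (hcl.closure_subset_iff.2 hsub) hdense
  · intro σ x hx
    obtain ⟨y, hy⟩ := σ.2
    have hc : Continuous fun t : ℝ => x + t • (y - x) := by fun_prop
    have ht : Tendsto (fun t : ℝ => x + t • (y - x)) (𝓝[>] 0) (𝓝 x) := by
      have h := hc.tendsto 0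
      simp only [zero_smul, add_zero] at h
      exact h.mono_left nhdsWithin_le_nhds
    refine tendsto_nhds_unique_of_eventuallyEq ((hf.tendsto _).comp ht)
      (((q (j σ)).continuous_ev.tendsto _).comp ht) ?_
    filter_upwards [Ioo_mem_nhdsGT (zero_lt_one (α := ℝ))] with t ht
    exact hj σ _ (hmix σ.1 x hx y hy t ht.1 ht.2.le)

end Pool.Agent.R221.PQ
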