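import Pool.Agent.R221.PQ.Cells

set_option autoImplicit false

open Filter Topology Set

namespace Pool.Agent.R221.PQ

/-- `q` is a quadratic function on `ℝⁿ`: `q x = (1/2) xᵀ Q x + bᵀ x + c`. -/
def IsQuadratic {n : ℕ} (q : EuclideanSpace ℝ (Fin n) → ℝ) : Prop :=
  ∃ (Q : Matrix (Fin n) (Fin n) ℝ) (b : Fin n → ℝ) (c : ℝ),
    ∀ x, q x = (1 / 2) * (x.ofLp ⬝ᵥ Q.mulVec x.ofLp) + b ⬝ᵥ x.ofLp + c

/-- Piecewise quadratic: continuous with `f x ∈ {q_1 x, …, q_I x}` for all `x`. -/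
def IsPQ {n : ℕ} (f : EuclideanSpace ℝ (Fin n) → ℝ) : Prop :=
  Continuous f ∧ ∃ (I : ℕ) (q : Fin I → EuclideanSpace ℝ (Fin n) → ℝ),
    (∀ i, IsQuadratic (q i)) ∧ ∀ x, ∃ i, f x = q i x

/-- Piecewise linear-quadratic: there are quadratic functions `q_1, …, q_I` and polyhedra
`P_1, …, P_I` covering `ℝⁿ` such that `f = q_i` on `P_i`. -/
def IsPLQ {n : ℕ} (f : EuclideanSpace ℝ (Fin n) → ℝ) : Prop :=
  Continuous f ∧ ∃ (I : ℕ) (q : Fin I → EuclideanSpace ℝ (Fin n) → ℝ)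
    (P : Fin I → Set (EuclideanSpace ℝ (Fin n))),
    (∀ i, IsQuadratic (q i)) ∧ (∀ i, IsPolyhedron (P i)) ∧ (⋃ i, P i) = univ ∧
      ∀ i, ∀ x ∈ P i, f x = q i x

/-- quadratic functions in coordinate free form -/
lemma exists_quad {n : ℕ} {q : EuclideanSpace ℝ (Fin n) → ℝ} (hq : IsQuadratic q) :
    ∃ r : Quad (EuclideanSpace ℝ (Fin n)), ∀ x, r.ev x = q x := by
  obtain ⟨Q, b, c, h⟩ := hq
  set pr : Fin n → (EuclideanSpace ℝ (Fin n) →L[ℝ] ℝ) := fun i => EuclideanSpace.proj i with hpr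
  have hpr' : ∀ i x, pr i x = x.ofLp i := fun i x => rfl
  refine ⟨⟨∑ i, ∑ j, ((Q i j + Q j i) / 4) • (pr i).smulRight (pr j), fun x y => ?_,
    ∑ i, b i • pr i, c⟩, fun x => ?_⟩
  · simp only [ContinuousLinearMap.sum_apply, smul_apply, ContinuousLinearMap.smulRight_apply,
      smul_eq_mul, hpr']
    rw [Finset.sum_comm]
    refine Finset.sum_congr rfl fun i _ => Finset.sum_congr rfl fun j _ => by ring
  · rw [h]
    simp only [Quad.ev, ContinuousLinearMap.sum_apply, smul_apply,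
      ContinuousLinearMap.smulRight_apply, smul_eq_mul, hpr', dotProduct, Matrix.mulVec]
    congr 2
    have e1 : ∑ i, ∑ j, (Q i j + Q j i) / 4 * (x.ofLp i * x.ofLp j) =
        (1 / 4) * (∑ i, ∑ j, Q i j * (x.ofLp i * x.ofLp j)) +
        (1 / 4) * (∑ i, ∑ j, Q j i * (x.ofLp i * x.ofLp j)) := by
      rw [Finset.mul_sum, Finset.mul_sum, ← Finset.sum_add_distrib]
      refine Finset.sum_congr rfl fun i _ => ?_
      rw [Finset.mul_sum, Finset.mul_sum, ← Finset.sum_add_distrib]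
      exact Finset.sum_congr rfl fun j _ => by ring
    have e2 : ∑ i, ∑ j, Q j i * (x.ofLp i * x.ofLp j) = ∑ i, ∑ j, Q i j * (x.ofLp i * x.ofLp j) := by
      rw [Finset.sum_comm]
      exact Finset.sum_congr rfl fun i _ => Finset.sum_congr rfl fun j _ => by ring
    rw [e1, e2]
    have e3 : ∑ i, x.ofLp i * ∑ j, Q i j * x.ofLp j = ∑ i, ∑ j, Q i j * (x.ofLp i * x.ofLp j) := by
      refine Finset.sum_congr rfl fun i _ => ?_
      rw [Finset.mul_sum]
      exact Finset.sum_congr rfl fun j _ => by ring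
    rw [e3]
    ring

theorem main {n : ℕ} (f : EuclideanSpace ℝ (Fin n) → ℝ) (hf : IsPQ f)
    (h2 : ∀ x, TwiceSemidiffAt f x) : IsPLQ f := by
  obtain ⟨hc, I, q, hq, hsel⟩ := hf
  choose r hr using fun i => exists_quad (hq i)
  obtain ⟨N, P, j, hP, hcov, hfP⟩ := stepD (q := r) hc (fun x => by
    obtain ⟨i, hi⟩ := hsel x
    exact ⟨i, by rw [hr, hi]⟩) h2
  refine ⟨hc, N, fun k => q (j k), P, fun k => hq _, hP, hcov, fun k x hx => ?_⟩
  rw [hfP k x hx, hr]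

end Pool.Agent.R221.PQ
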