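import Mathlib

set_option autoImplicit false

open Filter Topology Set

namespace Pool.Agent.R221.PQ

variable {E : Type*} [NormedAddCommGroup E] [NormedSpace ℝ E]

/-- a quadratic function, in coordinate free form -/
structure Quad (E : Type*) [NormedAddCommGroup E] [NormedSpace ℝ E] where
  B : E →L[ℝ] E →L[ℝ] ℝ
  symm : ∀ x y, B x y = B y x
  l : E →L[ℝ] ℝ
  c : ℝ

namespace Quad

/-- value -/
noncomputable def ev (q : Quad E) (x : E) : ℝ := q.B x x + q.l x + q.c

/-- derivative at `z` -/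
noncomputable def der (q : Quad E) (z : E) : E →L[ℝ] ℝ := (2 : ℝ) • q.B z + q.l

lemma ev_add (q : Quad E) (z w : E) : q.ev (z + w) = q.ev z + q.der z w + q.B w w := by
  simp only [ev, der, map_add, add_apply, smul_apply,
    smul_eq_mul]
  rw [q.symm w z]
  ring

lemma ev_add_smul (q : Quad E) (z w : E) (t : ℝ) :
    q.ev (z + t • w) = q.ev z + t * q.der z w + t ^ 2 * q.B w w := by
  rw [ev_add]
  simp only [map_smul, smul_apply, smul_eq_mul]
  ring

lemma der_add_smul (q : Quad E) (z w : E) (t : ℝ) :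
    q.der (z + t • w) w = q.der z w + 2 * t * q.B w w := by
  simp only [der, map_add, map_smul, add_apply,
    smul_apply, smul_eq_mul]
  ring

lemma continuous_ev (q : Quad E) : Continuous q.ev := by
  unfold ev
  have h1 : Continuous fun x => q.B x x := q.B.continuous.clm_apply continuous_id
  exact (h1.add q.l.continuous).add continuous_const

lemma continuous_B (q : Quad E) : Continuous fun x => q.B x x :=
  q.B.continuous.clm_apply continuous_id

/-- difference -/
noncomputable def sub (q r : Quad E) : Quad E where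
  B := q.B - r.B
  symm x y := by simp [q.symm x y, r.symm x y]
  l := q.l - r.l
  c := q.c - r.c

lemma sub_ev (q r : Quad E) (x : E) : (q.sub r).ev x = q.ev x - r.ev x := by
  simp [sub, ev]; ring

lemma sub_der (q r : Quad E) (x w : E) : (q.sub r).der x w = q.der x w - r.der x w := by
  simp [sub, der]; ring

lemma sub_B (q r : Quad E) (x y : E) : (q.sub r).B x y = q.B x y - r.B x y := by
  simp [sub]

/-- a real polynomial of degree at most two with three zeros vanishes -/
lemma poly_zero {a b c : ℝ} {x y z : ℝ} (hxy : x ≠ y) (hxz : x ≠ z) (hyz : y ≠ z)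
    (hx : a + x * b + x ^ 2 * c = 0) (hy : a + y * b + y ^ 2 * c = 0)
    (hz : a + z * b + z ^ 2 * c = 0) : a = 0 ∧ b = 0 ∧ c = 0 := by
  have h1 : b + (x + y) * c = 0 := by
    have : (x - y) * (b + (x + y) * c) = 0 := by linear_combination hx - hy
    exact (mul_eq_zero.1 this).resolve_left (sub_ne_zero.2 hxy)
  have h2 : b + (x + z) * c = 0 := by
    have : (x - z) * (b + (x + z) * c) = 0 := by linear_combination hx - hz
    exact (mul_eq_zero.1 this).resolve_left (sub_ne_zero.2 hxz)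
  have h3 : c = 0 := by
    have : (y - z) * c = 0 := by linear_combination h1 - h2
    exact (mul_eq_zero.1 this).resolve_left (sub_ne_zero.2 hyz)
  have h4 : b = 0 := by rw [h3] at h1; linarith
  refine ⟨?_, h4, h3⟩
  rw [h3, h4] at hx
  linarith

/-- a quadratic function vanishing on a nonempty open set vanishes identically -/
lemma ev_zero (q : Quad E) {U : Set E} (hU : IsOpen U) (hne : U.Nonempty)
    (h : ∀ x ∈ U, q.ev x = 0) (y : E) : q.ev y = 0 := by
  obtain ⟨x, hx⟩ := hne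
  have hc : Continuous fun t : ℝ => x + t • (y - x) := by fun_prop
  have h0 : ∀ᶠ t in 𝓝 (0 : ℝ), x + t • (y - x) ∈ U := by
    apply hc.continuousAt.eventually_mem
    simpa using hU.mem_nhds hx
  obtain ⟨ε, hε, hball⟩ := Metric.eventually_nhds_iff.1 h0
  have hz : ∀ t : ℝ, |t| < ε → q.ev x + t * q.der x (y - x) + t ^ 2 * q.B (y - x) (y - x) = 0 := by
    intro t ht
    rw [← ev_add_smul]
    exact h _ (hball (by simpa [Real.dist_eq] using ht))
  obtain ⟨ha, hb, hc'⟩ := poly_zero (x := 0) (y := ε / 2) (z := ε / 3) (by positivity)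
    (by positivity) (by intro h; linarith) (hz 0 (by simpa using hε))
    (hz (ε / 2) (by rw [abs_of_pos (by positivity)]; linarith))
    (hz (ε / 3) (by rw [abs_of_pos (by positivity)]; linarith))
  have := q.ev_add_smul x (y - x) 1
  rw [ha, hb, hc'] at this
  simpa using this

end Quad

/-- finite covers of a nonempty open set by closed sets -/
lemma cover {X : Type*} [TopologicalSpace X] {ι : Type*} (s : Finset ι) (Z : ι → Set X)
    (hZ : ∀ i, IsClosed (Z i)) : ∀ {W : Set X}, IsOpen W → W.Nonempty →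
    (∀ x ∈ W, ∃ i ∈ s, x ∈ Z i) → ∃ i ∈ s, ∃ W' ⊆ W, IsOpen W' ∧ W'.Nonempty ∧ W' ⊆ Z i := by
  classical
  induction s using Finset.induction_on with
  | empty =>
    intro W _ hne h
    obtain ⟨x, hx⟩ := hne
    obtain ⟨i, hi, _⟩ := h x hx
    simp at hi
  | insert a s _ ih =>
    intro W hW hne h
    by_cases h1 : W ⊆ Z a
    · exact ⟨a, Finset.mem_insert_self _ _, W, Subset.rfl, hW, hne, h1⟩
    · have h2 : (W \ Z a).Nonempty := Set.sdiff_nonempty.2 h1
      obtain ⟨i, hi, W', hW', ho, hne', hsub⟩ := ih (hW.sdiff (hZ a)) h2 (by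
        rintro x ⟨hx, hxa⟩
        obtain ⟨i, hi, hxi⟩ := h x hx
        rcases Finset.mem_insert.1 hi with rfl | hi
        · exact absurd hxi hxa
        · exact ⟨i, hi, hxi⟩)
      exact ⟨i, Finset.mem_insert_of_mem hi, W', hW'.trans Set.sdiff_subset, ho, hne', hsub⟩

/-- the same for a cover by arbitrary sets: one of them is dense somewhere -/
lemma cover_dense {X : Type*} [TopologicalSpace X] {ι : Type*} [Finite ι] (A : ι → Set X)
    {W : Set X} (hW : IsOpen W) (hne : W.Nonempty) (h : ∀ x ∈ W, ∃ i, x ∈ A i) :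
    ∃ i, ∃ W' ⊆ W, IsOpen W' ∧ W'.Nonempty ∧ W' ⊆ closure (A i) := by
  classical
  have := Fintype.ofFinite ι
  obtain ⟨i, _, h'⟩ := cover Finset.univ (fun i => closure (A i)) (fun _ => isClosed_closure) hW hne
    (fun x hx => by
      obtain ⟨i, hi⟩ := h x hx
      exact ⟨i, Finset.mem_univ _, subset_closure hi⟩)
  exact ⟨i, h'⟩

/-- pigeonhole along a filter -/
lemma frequently_pigeon {α ι : Type*} [Finite ι] {l : Filter α} {p : ι → α → Prop}
    (h : ∃ᶠ x in l, ∃ i, p i x) : ∃ i, ∃ᶠ x in l, p i x := by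
  by_contra hcon
  have hcon' : ∀ i, ¬ ∃ᶠ x in l, p i x := fun i hi => hcon ⟨i, hi⟩
  apply h
  have : ∀ᶠ x in l, ∀ i, ¬ p i x := eventually_all.2 fun i => not_frequently.1 (hcon' i)
  filter_upwards [this] with x hx
  rintro ⟨i, hi⟩
  exact hx i hi

/-- first exit -/
lemma exit {g : ℝ → ℝ} (hg : Continuous g) (h0 : ∀ᶠ t in 𝓝 (0 : ℝ), g t = 0) (h1 : g 1 ≠ 0) :
    ∃ t : ℝ, 0 < t ∧ t < 1 ∧ (∀ s ∈ Icc 0 t, g s = 0) ∧ ∃ᶠ s in 𝓝[>] t, g s ≠ 0 := by
  set S : Set ℝ := {t | 0 ≤ t ∧ t ≤ 1 ∧ g t ≠ 0} with hS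
  have hS1 : (1 : ℝ) ∈ S := ⟨zero_le_one, le_rfl, h1⟩
  have hbdd : BddBelow S := ⟨0, fun t ht => ht.1⟩
  set T := sInf S with hT
  obtain ⟨ε, hε, hball⟩ := Metric.eventually_nhds_iff.1 h0
  have hTε : ε ≤ T := by
    refine le_csInf ⟨1, hS1⟩ fun t ht => ?_
    by_contra hlt
    rw [not_le] at hlt
    exact ht.2.2 (hball (by rw [Real.dist_eq, sub_zero, abs_of_nonneg ht.1]; exact hlt))
  have hT0 : 0 < T := lt_of_lt_of_le hε hTε
  have hT1 : T ≤ 1 := csInf_le hbdd hS1
  have hlt : ∀ s, 0 ≤ s → s < T → g s = 0 := by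
    intro s hs hsT
    by_contra hgs
    have : T ≤ s := csInf_le hbdd ⟨hs, by linarith, hgs⟩
    linarith
  have hgT : g T = 0 := by
    have h3 : Tendsto g (𝓝[<] T) (𝓝 (g T)) := (hg.tendsto T).mono_left nhdsWithin_le_nhds
    have h4 : Tendsto g (𝓝[<] T) (𝓝 0) := by
      refine tendsto_const_nhds.congr' ?_
      filter_upwards [Ioo_mem_nhdsLT hT0] with s hs
      exact (hlt s hs.1.le hs.2).symm
    exact tendsto_nhds_unique h3 h4
  have hT1' : T < 1 := lt_of_le_of_ne hT1 fun h => h1 (h ▸ hgT)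
  refine ⟨T, hT0, hT1', ?_, ?_⟩
  · intro s hs
    rcases hs.2.eq_or_lt with h | h
    · rw [h]; exact hgT
    · exact hlt s hs.1 h
  · rw [frequently_iff]
    intro U hU
    obtain ⟨u, hu, hsub⟩ := (mem_nhdsGT_iff_exists_Ioo_subset).1 hU
    obtain ⟨s, hs, hsu⟩ := exists_lt_of_csInf_lt ⟨1, hS1⟩ (show sInf S < u from hu)
    refine ⟨s, hsub ⟨?_, hsu⟩, hs.2.2⟩
    exact lt_of_le_of_ne (csInf_le hbdd hs) fun h => hs.2.2 (h ▸ hgT)

end Pool.Agent.R221.PQ
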