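import Pool.Agent.R221.PQ.Quad

set_option autoImplicit false

open Filter Topology Set

namespace Pool.Agent.R221.PQ

variable {E : Type*} [NormedAddCommGroup E] [NormedSpace ℝ E]

/-- `D` is the semiderivative of `f` at `x`: for every `v`,
`D v = lim_{v' → v, τ ↓ 0} (f (x + τ v') - f x) / τ`. -/
def HasSemideriv (f : E → ℝ) (x : E) (D : E → ℝ) : Prop :=
  ∀ v : E, Tendsto (fun p : E × ℝ => (f (x + p.2 • p.1) - f x) / p.2) (𝓝 v ×ˢ 𝓝[>] 0) (𝓝 (D v))

/-- `f` is twice semidifferentiable at `x`: it has a semiderivative `D` there and for every `w`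
the limit `lim_{w' → w, τ ↓ 0} (f (x + τ w') - f x - τ D w') / τ²` exists in `ℝ`. -/
def TwiceSemidiffAt (f : E → ℝ) (x : E) : Prop :=
  ∃ D : E → ℝ, HasSemideriv f x D ∧ ∀ w : E, ∃ e : ℝ,
    Tendsto (fun p : E × ℝ => (f (x + p.2 • p.1) - f x - p.2 * D p.1) / p.2 ^ 2)
      (𝓝 w ×ˢ 𝓝[>] 0) (𝓝 e)

/-- limits along products depend continuously on the parameter -/
lemma continuous_limit {φ : E × ℝ → ℝ} {l : Filter ℝ} [l.NeBot] {D : E → ℝ}
    (h : ∀ v, Tendsto φ (𝓝 v ×ˢ l) (𝓝 (D v))) : Continuous D := by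
  rw [continuous_iff_continuousAt]
  intro v
  rw [Metric.continuousAt_iff']
  intro ε hε
  have h1 := (h v).eventually (Metric.closedBall_mem_nhds (D v) (half_pos hε))
  obtain ⟨pa, hpa, pb, hpb, hab⟩ := Filter.eventually_prod_iff.1 h1
  filter_upwards [hpa.eventually_nhds] with u hu
  have h2 : ∀ᶠ p in 𝓝 u ×ˢ l, φ p ∈ Metric.closedBall (D v) (ε / 2) := by
    rw [Filter.eventually_prod_iff]
    exact ⟨pa, hu, pb, hpb, fun hx _ hy => hab hx hy⟩
  have h3 : D u ∈ Metric.closedBall (D v) (ε / 2) :=
    Metric.isClosed_closedBall.mem_of_tendsto (h u) h2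
  rw [Metric.mem_closedBall] at h3
  linarith

/-- the path `τ ↦ (w, τ)` -/
lemma tendsto_slice (w : E) : Tendsto (fun τ : ℝ => (w, τ)) (𝓝[>] 0) (𝓝 w ×ˢ 𝓝[>] (0 : ℝ)) :=
  tendsto_const_nhds.prodMk tendsto_id

variable {ι : Type*} [Finite ι] {q : ι → Quad E} {f : E → ℝ}

/-- Step A: first and second order data along a direction come from one quadratic function. -/
lemma stepA (hf : Continuous f) (hq : ∀ x, ∃ i, f x = (q i).ev x) {z : E} {D E₂ : E → ℝ}
    (hD : HasSemideriv f z D)
    (hE : ∀ w : E, Tendsto (fun p : E × ℝ => (f (z + p.2 • p.1) - f z - p.2 * D p.1) / p.2 ^ 2)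
      (𝓝 w ×ˢ 𝓝[>] 0) (𝓝 (E₂ w))) (w : E) :
    ∃ i, f z = (q i).ev z ∧ D w = (q i).der z w ∧ E₂ w = (q i).B w w := by
  have h0 : ∃ᶠ τ in 𝓝[>] (0 : ℝ), ∃ i, f (z + τ • w) = (q i).ev (z + τ • w) :=
    Eventually.frequently (Eventually.of_forall fun τ => hq _)
  obtain ⟨i, hi⟩ := frequently_pigeon h0
  have hc : Tendsto (fun τ : ℝ => z + τ • w) (𝓝[>] 0) (𝓝 z) := by
    have : Continuous fun τ : ℝ => z + τ • w := by fun_prop
    have h := this.tendsto 0
    simp only [zero_smul, add_zero] at h
    exact h.mono_left nhdsWithin_le_nhds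
  have hz : f z = (q i).ev z :=
    tendsto_nhds_unique_of_frequently_eq ((hf.tendsto z).comp hc)
      (((q i).continuous_ev.tendsto z).comp hc) hi
  have hpos : ∀ᶠ τ : ℝ in 𝓝[>] 0, 0 < τ := self_mem_nhdsWithin
  have h1 : D w = (q i).der z w := by
    have t1 := (hD w).comp (tendsto_slice w)
    have t2 : Tendsto (fun τ : ℝ => (q i).der z w + τ * (q i).B w w) (𝓝[>] 0)
        (𝓝 ((q i).der z w)) := by
      have : Continuous fun τ : ℝ => (q i).der z w + τ * (q i).B w w := by fun_prop
      have h := this.tendsto 0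
      simp only [zero_mul, add_zero] at h
      exact h.mono_left nhdsWithin_le_nhds
    refine tendsto_nhds_unique_of_frequently_eq t1 t2 ?_
    refine (hi.and_eventually hpos).mono fun τ hτ => ?_
    simp only [Function.comp]
    rw [hτ.1, (q i).ev_add_smul, hz]
    have := hτ.2.ne'
    field_simp
    ring
  refine ⟨i, hz, h1, ?_⟩
  have t1 := (hE w).comp (tendsto_slice w)
  refine tendsto_nhds_unique_of_frequently_eq t1 (tendsto_const_nhds (x := (q i).B w w)) ?_
  refine (hi.and_eventually hpos).mono fun τ hτ => ?_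
  simp only [Function.comp]
  rw [hτ.1, (q i).ev_add_smul, hz, h1]
  have := hτ.2.ne'
  field_simp
  ring

/-- `x` lies on no hyperplane on which a nonzero difference of the `q i` vanishes -/
def Good (q : ι → Quad E) (x : E) : Prop :=
  ∀ i j, (q i).ev ≠ (q j).ev → ∀ m : E →L[ℝ] ℝ, m ≠ 0 →
    ∃ v, m v = 0 ∧ (q i).ev (x + v) ≠ (q j).ev (x + v)

/-- a continuous linear functional vanishing on a nonempty open set is zero -/
lemma lin_zero {m : E →L[ℝ] ℝ} {U : Set E} (hU : IsOpen U) (hne : U.Nonempty)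
    (h : ∀ x ∈ U, m x = 0) : m = 0 := by
  have h1 := Quad.ev_zero (E := E) ⟨0, fun x y => by simp, m, 0⟩ hU hne
    (fun x hx => by simp [Quad.ev, h x hx])
  ext x
  simpa [Quad.ev] using h1 x

/-- Step B: at a good point the semiderivative is linear. -/
lemma stepB (hf : Continuous f) (hq : ∀ x, ∃ i, f x = (q i).ev x) {z : E} (hz : Good q z)
    (h2 : TwiceSemidiffAt f z) : ∃ L : E →L[ℝ] ℝ, HasSemideriv f z L := by
  classical
  have := Fintype.ofFinite ι
  obtain ⟨D, hD, hE'⟩ := h2
  choose E₂ hE using hE'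
  have hA := stepA hf hq hD hE
  have hDc : Continuous D := continuous_limit hD
  have hEc : Continuous E₂ := continuous_limit hE
  -- an open set on which `D` is one of the linear forms
  obtain ⟨i0, -, V, -, hVo, hVne, hV⟩ := cover (Finset.univ : Finset ι)
    (fun i => {w | D w = (q i).der z w}) (fun i => isClosed_eq hDc ((q i).der z).continuous)
    isOpen_univ univ_nonempty (fun w _ => by
      obtain ⟨i, -, hi, -⟩ := hA w
      exact ⟨i, Finset.mem_univ _, hi⟩)
  set L := (q i0).der z with hL
  -- a generic point of it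
  obtain ⟨p, hpV, hp⟩ : ∃ p ∈ V, ∀ i, (q i).der z ≠ L → (q i).der z p ≠ L p := by
    by_contra hcon
    push Not at hcon
    obtain ⟨i, hi, W, hWV, hWo, hWne, hW⟩ := cover (Finset.univ.filter fun i => (q i).der z ≠ L)
      (fun i => {w | (q i).der z w = L w})
      (fun i => isClosed_eq ((q i).der z).continuous L.continuous) hVo hVne (fun p hp => by
        obtain ⟨i, h1, h2⟩ := hcon p hp
        exact ⟨i, Finset.mem_filter.2 ⟨Finset.mem_univ _, h1⟩, h2⟩)
    rw [Finset.mem_filter] at hi
    apply hi.2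
    have := lin_zero (m := (q i).der z - L) hWo hWne (fun x hx => by
      have := hW hx
      simp only [mem_ofPred_eq] at this
      simp [this])
    exact sub_eq_zero.1 this
  suffices hDL : ∀ w, D w = L w by
    refine ⟨L, ?_⟩
    have : D = L := funext hDL
    rw [← this]
    exact hD
  by_contra hcon
  push Not at hcon
  obtain ⟨w0, hw0⟩ := hcon
  set W : Set E := {w | D w ≠ L w} with hW
  have hWo : IsOpen W := isOpen_ne_fun hDc L.continuous
  -- every point of `W` is a zero of one of finitely many quadratic forms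
  have key : ∀ w ∈ W, ∃ bc ∈ (Finset.univ.filter fun bc : ι × ι =>
      (q bc.1).der z ≠ L ∧ (q bc.2).der z = L ∧ f z = (q bc.1).ev z ∧ f z = (q bc.2).ev z),
      w ∈ {w : E | ((q bc.1).sub (q bc.2)).B
        (((q bc.1).der z - L) p • w - ((q bc.1).der z - L) w • p)
        (((q bc.1).der z - L) p • w - ((q bc.1).der z - L) w • p) = 0} := by
    intro w hw
    set γ : ℝ → E := fun t => p + t • (w - p) with hγ
    have hγc : Continuous γ := by simp only [hγ]; fun_prop
    have hg : Continuous fun t => D (γ t) - L (γ t) :=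
      (hDc.comp hγc).sub (L.continuous.comp hγc)
    have hg0 : ∀ᶠ t in 𝓝 (0 : ℝ), D (γ t) - L (γ t) = 0 := by
      have : ∀ᶠ t in 𝓝 (0 : ℝ), γ t ∈ V := by
        apply hγc.continuousAt.eventually_mem
        simpa [hγ] using hVo.mem_nhds hpV
      filter_upwards [this] with t ht
      have := hV ht
      simp only [mem_ofPred_eq] at this
      rw [this, sub_self]
    have hg1 : D (γ 1) - L (γ 1) ≠ 0 := by
      have : γ 1 = w := by simp [hγ]
      rw [this]
      exact sub_ne_zero.2 hw
    obtain ⟨T, hT0, hT1, hleft, hright⟩ := exit hg hg0 hg1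
    -- left side
    have hl : ∃ᶠ t in 𝓝[<] T, ∃ c, (f z = (q c).ev z ∧ D (γ t) = (q c).der z (γ t) ∧
        E₂ (γ t) = (q c).B (γ t) (γ t)) ∧ D (γ t) = L (γ t) ∧ t < T := by
      apply Eventually.frequently
      filter_upwards [Ioo_mem_nhdsLT hT0] with t ht
      obtain ⟨c, hc⟩ := hA (γ t)
      exact ⟨c, hc, sub_eq_zero.1 (hleft t ⟨ht.1.le, ht.2.le⟩), ht.2⟩
    obtain ⟨c, hc⟩ := frequently_pigeon hl
    have hγT : Tendsto γ (𝓝[<] T) (𝓝 (γ T)) := (hγc.tendsto T).mono_left nhdsWithin_le_nhds
    have hcz : f z = (q c).ev z := by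
      obtain ⟨t, ht⟩ := hc.exists
      exact ht.1.1
    have hDT : D (γ T) = L (γ T) := sub_eq_zero.1 (hleft T ⟨hT0.le, le_rfl⟩)
    have hcT : D (γ T) = (q c).der z (γ T) :=
      tendsto_nhds_unique_of_frequently_eq ((hDc.tendsto _).comp hγT)
        ((((q c).der z).continuous.tendsto _).comp hγT) (hc.mono fun t ht => ht.1.2.1)
    have hcE : E₂ (γ T) = (q c).B (γ T) (γ T) :=
      tendsto_nhds_unique_of_frequently_eq ((hEc.tendsto _).comp hγT)
        (((q c).continuous_B.tendsto _).comp hγT) (hc.mono fun t ht => ht.1.2.2)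
    have hcL : (q c).der z = L := by
      by_contra hne
      apply hp c hne
      obtain ⟨t, ht⟩ := hc.exists
      -- the affine function `t ↦ (q c).der z (γ t) - L (γ t)` vanishes at `t` and `T`
      have e1 : ((q c).der z - L) p + t * ((q c).der z - L) (w - p) = 0 := by
        have := ht.1.2.1.symm.trans ht.2.1
        simp only [hγ, map_add, map_smul, smul_eq_mul] at this
        simp only [sub_apply]
        linarith
      have e2 : ((q c).der z - L) p + T * ((q c).der z - L) (w - p) = 0 := by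
        have := hcT.symm.trans hDT
        simp only [hγ, map_add, map_smul, smul_eq_mul] at this
        simp only [sub_apply]
        linarith
      have e3 : (T - t) * ((q c).der z - L) (w - p) = 0 := by linear_combination e2 - e1
      have e4 : ((q c).der z - L) (w - p) = 0 :=
        (mul_eq_zero.1 e3).resolve_left (by have := ht.2.2; intro h; linarith)
      rw [e4, mul_zero, add_zero] at e1
      simp only [sub_apply] at e1
      linarith
    -- right side
    have hr : ∃ᶠ t in 𝓝[>] T, ∃ b, (f z = (q b).ev z ∧ D (γ t) = (q b).der z (γ t) ∧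
        E₂ (γ t) = (q b).B (γ t) (γ t)) ∧ D (γ t) ≠ L (γ t) := by
      refine hright.mono fun t ht => ?_
      obtain ⟨b, hb⟩ := hA (γ t)
      exact ⟨b, hb, sub_ne_zero.1 ht⟩
    obtain ⟨b, hb⟩ := frequently_pigeon hr
    have hγT' : Tendsto γ (𝓝[>] T) (𝓝 (γ T)) := (hγc.tendsto T).mono_left nhdsWithin_le_nhds
    have hbz : f z = (q b).ev z := by
      obtain ⟨t, ht⟩ := hb.exists
      exact ht.1.1
    have hbL : (q b).der z ≠ L := by
      intro h
      obtain ⟨t, ht⟩ := hb.exists
      apply ht.2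
      rw [ht.1.2.1, h]
    have hbT : D (γ T) = (q b).der z (γ T) :=
      tendsto_nhds_unique_of_frequently_eq ((hDc.tendsto _).comp hγT')
        ((((q b).der z).continuous.tendsto _).comp hγT') (hb.mono fun t ht => ht.1.2.1)
    have hbE : E₂ (γ T) = (q b).B (γ T) (γ T) :=
      tendsto_nhds_unique_of_frequently_eq ((hEc.tendsto _).comp hγT')
        (((q b).continuous_B.tendsto _).comp hγT') (hb.mono fun t ht => ht.1.2.2)
    refine ⟨(b, c), Finset.mem_filter.2 ⟨Finset.mem_univ _, hbL, hcL, hbz, hcz⟩, ?_⟩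
    simp only [mem_ofPred_eq]
    set m := (q b).der z - L with hm
    have hmT : m p + T * (m w - m p) = 0 := by
      have := hbT.symm.trans hDT
      simp only [hγ, map_add, map_smul, smul_eq_mul, map_sub] at this
      simp only [hm, sub_apply]
      linarith
    have hpt : m p • w - m w • p = (m p - m w) • γ T := by
      simp only [hγ]
      have : m p = T * (m p - m w) := by linarith
      calc m p • w - m w • p = (m p - m w) • p + m p • (w - p) := by module
        _ = (m p - m w) • p + (T * (m p - m w)) • (w - p) := by rw [← this]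
        _ = _ := by module
    rw [hpt]
    simp only [map_smul, smul_apply, smul_eq_mul]
    rw [Quad.sub_B, ← hbE, ← hcE, sub_self]
    ring
  obtain ⟨⟨b, c⟩, hbc, W', hW'W, hW'o, hW'ne, hW'⟩ := cover _
    (fun bc : ι × ι => {w : E | ((q bc.1).sub (q bc.2)).B
        (((q bc.1).der z - L) p • w - ((q bc.1).der z - L) w • p)
        (((q bc.1).der z - L) p • w - ((q bc.1).der z - L) w • p) = 0})
    (fun bc => by
      have h1 : Continuous fun w : E => ((q bc.1).der z - L) p • w - ((q bc.1).der z - L) w • p := by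
        fun_prop
      exact isClosed_eq (((q bc.1).sub (q bc.2)).continuous_B.comp h1) continuous_const)
    hWo ⟨w0, hw0⟩ key
  rw [Finset.mem_filter] at hbc
  obtain ⟨-, hbL, hcL, hbz, hcz⟩ := hbc
  simp only at hbL hcL hbz hcz hW'
  set m := (q b).der z - L with hm
  set s := (q b).sub (q c) with hs
  set Tm : E →L[ℝ] E := m p • ContinuousLinearMap.id ℝ E - m.smulRight p with hTm
  have hTm' : ∀ w, Tm w = m p • w - m w • p := fun w => by simp [hTm]
  -- the quadratic form vanishes identically
  have hall : ∀ w : E, s.B (m p • w - m w • p) (m p • w - m w • p) = 0 := by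
    intro w
    let Q : Quad E := ⟨(s.B.comp Tm).flip.comp Tm |>.flip, fun x y => by
      simp only [ContinuousLinearMap.flip_apply, ContinuousLinearMap.comp_apply]
      exact s.symm _ _, 0, 0⟩
    have hQ : ∀ x, Q.ev x = s.B (m p • x - m x • p) (m p • x - m x • p) := by
      intro x
      simp only [Q, Quad.ev, ContinuousLinearMap.flip_apply, ContinuousLinearMap.comp_apply, hTm']
      simp
    rw [← hQ]
    exact Q.ev_zero hW'o hW'ne (fun x hx => by rw [hQ]; exact hW' hx) w
  have hmp : m p ≠ 0 := by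
    have := hp b hbL
    simp only [hm, sub_apply]
    exact sub_ne_zero.2 this
  have hm0 : m ≠ 0 := sub_ne_zero.2 hbL
  have hne : (q b).ev ≠ (q c).ev := by
    intro h
    -- derivatives would agree
    apply hbL
    rw [← hcL]
    have h1 : ∀ x, (s).ev x = 0 := fun x => by rw [hs, Quad.sub_ev, h, sub_self]
    ext w
    have e0 := s.ev_add_smul z w 0
    have e1 := s.ev_add_smul z w 1
    have e2 := s.ev_add_smul z w 2
    rw [h1, h1] at e0 e1 e2
    have : s.der z w = 0 := by linarith
    rw [hs, Quad.sub_der] at this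
    linarith
  obtain ⟨v, hv, hvne⟩ := hz b c hne m hm0
  apply hvne
  have h1 := hall v
  rw [hv, zero_smul, sub_zero] at h1
  simp only [map_smul, smul_apply, smul_eq_mul] at h1
  have h2 : s.B v v = 0 := by
    have h3 : m p * m p ≠ 0 := mul_ne_zero hmp hmp
    have h4 : (m p * m p) * s.B v v = 0 := by linarith
    exact (mul_eq_zero.1 h4).resolve_left h3
  have h3 := s.ev_add z v
  rw [hs, Quad.sub_ev, Quad.sub_ev, Quad.sub_der, ← hs, h2, ← hbz, ← hcz, hcL] at h3
  simp only [hm, sub_apply] at hv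
  linarith

end Pool.Agent.R221.PQ
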